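import Pool.Agent.Lib.MP_1a91b9_nuY.AN.Up
import Pool.Agent.Lib.MP_1a91b9_nuX.QW.GluA

/-!
# Twisted base: the Hecke character of a twist of the curve

`psT F T g θ`: the character `psi F · θ(art)⁻¹` away from `g`, where `art` is the Artin map of the field of the torsion point `T`.
It is the Hecke character of the twist `W` of the curve with `psi F = θ Hv W`.
-/

set_option autoImplicit false

namespace Pool.Agent.Lib.MP_1a91b9_nuY

variable [Pool.Agent.Lib.MP_1a91b9_nuT.CD]

open Pool.Agent.Lib.MP_1a91b9_nuT hiding cj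
open NumberField IsDedekindDomain Module Pool.Agent.Lib.MP_1a91b9_nt
  Pool.Agent.Lib.MP_1a91b9_nuT.S4 Pool.Agent.Lib.MP_1a91b9_nuG Pool.Agent.Lib.MP_1a91b9_nuX
  Pool.Agent.Lib.MP_1a91b9_nuW
open Pool.Agent.Lib.MP_1a91b9_nuX.DB Pool.Agent.Lib.MP_1a91b9_nuX.DX
open Pool.Agent.Lib.MP_1a91b9_nuX.TG Pool.Agent.Lib.MP_1a91b9_nuX.TC
open Pool.Agent.Lib.MP_1a91b9_nuX.AN
open Pool.Agent.Lib.MP_1a91b9_nuX.QW (thC unC unC_apply unC_conj thC_apply span_up_ne span_up_cop
  span_le_gB)

universe u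

variable [HC]

section
variable {L : Type u} [Field L] [NumberField L] [Algebra K L] [DecidableEq L]

open Classical in
/-- the Hecke character of the twist of the curve by `θ` -/
noncomputable def psT (F : Type u) [Field F] [NumberField F] [Algebra K F] [Algebra F L]
    [IsScalarTower K F L] (T : Pt L) (g : 𝓞 K) (θ : Gal(L/F) →* (𝓞 K)ˣ)
    (I : Ideal (𝓞 F)) : 𝓞 K :=
  if IsCoprime I (Ideal.span {up g F}) then
    psi F I * (((θ (art F T I))⁻¹ : (𝓞 K)ˣ) : 𝓞 K) else 0

end

section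
variable {μ g : 𝓞 K} {F L : Type u} [Field F] [NumberField F] [Algebra K F]
  [Field L] [NumberField L] [Algebra K L]
  [Algebra F L] [IsScalarTower K F L] [DecidableEq L] {T : Pt L}
  {θ : Gal(L/F) →* (𝓞 K)ˣ}

theorem psT_of {I : Ideal (𝓞 F)} (h : IsCoprime I (Ideal.span {up g F})) :
    psT F T g θ I = psi F I * (((θ (art F T I))⁻¹ : (𝓞 K)ˣ) : 𝓞 K) := if_pos h

theorem psT_of_not {I : Ideal (𝓞 F)} (h : ¬ IsCoprime I (Ideal.span {up g F})) :
    psT F T g θ I = 0 := if_neg h

/-- the complex values of the conjugate of the character -/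
theorem pB_psT (I : Ideal (𝓞 F)) : pB (psT F T g θ) I =
    psbC F I * cT F T (Ideal.span {up g F}) (thC θ) I := by
  by_cases hI : IsCoprime I (Ideal.span {up g F})
  · rw [cT_of hI, pB, pC, psT_of hI]
    have h6 : psbC F I = (starRingEnd ℂ) (embK ((psi F I : 𝓞 K) : K)) := rfl
    have h7 : ((psi F I * (((θ (art F T I))⁻¹ : (𝓞 K)ˣ) : 𝓞 K) : 𝓞 K) : K) =
      ((psi F I : 𝓞 K) : K) * ((((θ (art F T I))⁻¹ : (𝓞 K)ˣ) : 𝓞 K) : K) :=
      map_mul (algebraMap (𝓞 K) K) _ _
    rw [h6, h7, map_mul, map_mul, thC_apply]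
    congr 1
    have h8 : embK ((((θ (art F T I))⁻¹ : (𝓞 K)ˣ) : 𝓞 K) : K) *
        embK (((θ (art F T I) : (𝓞 K)ˣ) : 𝓞 K) : K) = 1 := by
      rw [← map_mul, ← map_mul (algebraMap (𝓞 K) K), Units.inv_mul, map_one, map_one]
    have h9 := unC_conj (θ (art F T I))⁻¹
    have h10 : embK (((((θ (art F T I))⁻¹ : (𝓞 K)ˣ)) : 𝓞 K) : K) ≠ 0 := left_ne_zero_of_mul_eq_one h8
    refine mul_right_cancel₀ h10 ?_
    rw [h9, ← h8, mul_comm]
  · rw [cT_of_not hI, pB, pC, psT_of_not hI]
    simp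

variable [IsGalois F L]

/-- **The character of the twist is a Hecke character of the type of the curve.** -/
theorem hf_psT (hT : AbT μ F T) (hg0 : g ≠ 0) (hg : gB μ ∣ g) : HF g F (psT F T g θ) := by
  have hm := span_le_gB (N := F) hg
  have hfg : HC.f ∣ g := (f_dvd_gB μ).trans hg
  have hup : up HC.f F ∣ up g F := map_dvd (algebraMap (𝓞 K) (𝓞 F)) hfg
  have hcf : ∀ I : Ideal (𝓞 F), IsCoprime I (Ideal.span {up g F}) →
      IsCoprime I (Ideal.span {up HC.f F}) := fun I hI =>
    hI.of_isCoprime_of_dvd_right (Ideal.dvd_iff_le.2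
      (Ideal.span_singleton_le_span_singleton.2 hup))
  obtain ⟨r, hr, hrf⟩ := HC.hd.big
  have hbig : ∃ r : ℕ, 3 ≤ r ∧ (r : 𝓞 K) ∣ g := ⟨r, hr, hrf.trans hfg⟩
  have hne1 : Ideal.span {up g F} ≠ 1 := by
    intro h0
    have h1 : IsCoprime (0 : Ideal (𝓞 F)) (Ideal.span {up g F}) := by
      rw [h0]
      exact isCoprime_one_right
    have h2 := hcf _ h1
    rw [isCoprime_zero_left, Ideal.isUnit_iff] at h2
    exact up_span_ne_top (F := F) (by rw [h2, Ideal.one_eq_top])
  refine ⟨hg0, hbig, ?_, ?_, fun I hI => psT_of_not hI, ?_, ?_⟩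
  · rw [psT_of isCoprime_one_left, art_one hT, psi_one]
    simp
  · intro I J
    by_cases hI : IsCoprime I (Ideal.span {up g F})
    · by_cases hJ : IsCoprime J (Ideal.span {up g F})
      · rw [psT_of (hI.mul_left hJ), psT_of hI, psT_of hJ,
          art_mul hT hm (ne_zero_of_coprime hne1 hI) hI (ne_zero_of_coprime hne1 hJ) hJ, map_mul,
          psi_mul, mul_inv, Units.val_mul]
        ring
      · rw [psT_of_not hJ, mul_zero, psT_of_not fun h => hJ h.of_mul_left_right]
    · rw [psT_of_not hI, zero_mul, psT_of_not fun h => hI h.of_mul_left_left]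
  · intro I hI
    rw [psT_of hI, ← (psi_spec I (hcf I hI)).2]
    exact Ideal.span_singleton_mul_right_unit ((θ (art F T I))⁻¹).isUnit _
  · intro z hz
    have hzm : z - 1 ∈ Ideal.span {up g F} := Ideal.mem_span_singleton.2 hz
    have hcop : IsCoprime (Ideal.span {z}) (Ideal.span {up g F}) := by
      rw [Ideal.isCoprime_iff_exists]
      refine ⟨z, Ideal.mem_span_singleton_self z, 1 - z, ?_, by ring⟩
      have e : 1 - z = -(z - 1) := by ring
      rw [e]
      exact (Ideal.span {up g F}).neg_mem hzm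
    rw [psT_of hcop, art_span hT hm hzm, map_one, inv_one, Units.val_one, mul_one]
    exact HF.ofHC.ray z (hup.trans hz)

end

section
variable {μ g : 𝓞 K} {N M L : Type u} [Field N] [NumberField N] [Algebra K N] [Field M]
  [NumberField M] [Algebra K M] [Field L] [NumberField L] [Algebra K L] [Algebra N M]
  [Algebra N L] [Algebra M L] [IsScalarTower K N M] [IsScalarTower K N L]
  [IsScalarTower K M L] [IsScalarTower N M L] [DecidableEq L] [IsGalois N L]
  {T : Pt L}

/-- the characters of `psi` in a tower -/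
theorem psi_relNorm (I : Ideal (𝓞 M)) : psi N (Ideal.relNorm (𝓞 N) I) = psi M I := by
  rw [psi, psi, Ideal.relNorm_relNorm]

/-- the Artin maps in a tower -/
theorem art_up (hT : AbT μ N T) (hg : gB μ ∣ g) (I : Ideal (𝓞 M))
    (hI0 : I ≠ 0) (hI : IsCoprime I (Ideal.span {up g M})) :
    toFH N M L (art M T I) = art N T (Ideal.relNorm (𝓞 N) I) := by
  have hGM : IsGalois M L := IsGalois.tower_top_of_isGalois N M L
  have hT' : AbT μ M T := hT.mid
  symm
  apply art_eq hT
  rw [ga_toFH, art_spec (exists_art hT' (span_le_gB (N := M) hg) I hI0 hI), psi_relNorm]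

/-- **The character of the twist over an extension.** -/
theorem psT_over (hT : AbT μ N T) (hg : gB μ ∣ g) (hg0 : g ≠ 0) (θ : Gal(L/N) →* (𝓞 K)ˣ)
    (I : Ideal (𝓞 M)) :
    psT M T g (θ.comp (toFH N M L)) I = psT N T g θ (Ideal.relNorm (𝓞 N) I) := by
  have hGM : IsGalois M L := IsGalois.tower_top_of_isGalois N M L
  have hT' : AbT μ M T := hT.mid
  by_cases hI : IsCoprime I (Ideal.span {up g M})
  · have hI0 : I ≠ 0 := ne_zero_of_coprime
      (hf_psT (θ := θ.comp (toFH N M L)) hT' hg0 hg).up_ne_top hI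
    rw [psT_of hI, psT_of (relNorm_cop g I hI), psi_relNorm, MonoidHom.comp_apply,
      art_up hT hg I hI0 hI]
  · rw [psT_of_not hI, psT_of_not (relNorm_not_cop g I hI)]

end

end Pool.Agent.Lib.MP_1a91b9_nuY
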