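import Pool.Agent.Lib.MP_1a91b9_nuY.AN.Defs
import Pool.Agent.Lib.MP_1a91b9_nuW.ZD.Defs

/-!
# Twisted base: the values normalised by the discriminant

`UnitZY ℓ F Ψ`: the series of the conjugate of `Ψ` continues, and its value at `1`, divided by `Om ^ [F : K]` and multiplied by
the square root of the relative discriminant of `F / K`, is a unit above `ℓ`.
-/

set_option autoImplicit false

namespace Pool.Agent.Lib.MP_1a91b9_nuY

variable [Pool.Agent.Lib.MP_1a91b9_nuT.CD]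

open Pool.Agent.Lib.MP_1a91b9_nuT hiding cj
open NumberField IsDedekindDomain Module Pool.Agent.Lib.MP_1a91b9_nt
  Pool.Agent.Lib.MP_1a91b9_nuT.S4 Pool.Agent.Lib.MP_1a91b9_nuG Pool.Agent.Lib.MP_1a91b9_nuX
  Pool.Agent.Lib.MP_1a91b9_nuW
open Pool.Agent.Lib.MP_1a91b9_nuW.ZD (Dg NV NI plP_cases plP_ell exists_dg diff_cop norm_cop
  val_of_cop)

universe u

/-- The series of the conjugate of `Ψ` continues and does not vanish at `1`. -/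
def LGoodY (F : Type u) [Field F] [NumberField F] [Algebra K F] (Ψ : Ideal (𝓞 F) → 𝓞 K) :
    Prop :=
  ∃ L : ℂ → ℂ, Differentiable ℂ L ∧ (∀ s : ℂ, 2 < s.re → L s = Lf (pB Ψ) s) ∧ L 1 ≠ 0

/-- The series of the conjugate of `Ψ` continues and its normalised value at `1` is a unit above `ℓ`. -/
def UnitZY (ℓ : ℕ) (F : Type u) [Field F] [NumberField F] [Algebra K F]
    (Ψ : Ideal (𝓞 F) → 𝓞 K) : Prop :=
  ∃ L : ℂ → ℂ, Differentiable ℂ L ∧ (∀ s : ℂ, 2 < s.re → L s = Lf (pB Ψ) s) ∧ NV ℓ F (L 1)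

section
variable {F : Type u} [Field F] [NumberField F] [Algebra K F] {ℓ : ℕ}
  {Ψ : Ideal (𝓞 F) → 𝓞 K}

/-- unramified above `ℓ`: the discriminant is a unit -/
theorem val_dg (hℓ : ℓ ≠ 0)
    (hu : ∀ q : HeightOneSpectrum (𝓞 K), (ℓ : 𝓞 K) ∈ q.asIdeal →
      ¬ Pool.Agent.Lib.MP_1a91b9_nuG.Ram F q) {A : ValuationSubring ℂ} (hA : (ℓ : ℂ)⁻¹ ∉ A)
    {d : 𝓞 K} (hd : Dg F d) : A.valuation (embK (d : K)) = 1 := by
  have h1 : IsCoprime (differentIdeal (𝓞 K) (𝓞 F)) (Ideal.span {(ℓ : 𝓞 F)}) :=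
    diff_cop (N := K) (M := F) hℓ hu
  have h2 : IsCoprime d (ℓ : 𝓞 K) := norm_cop h1 hd
  exact val_of_cop hA h2

theorem unitZY_of_unitT (hℓ : ℓ ≠ 0)
    (hu : ∀ q : HeightOneSpectrum (𝓞 K), (ℓ : 𝓞 K) ∈ q.asIdeal →
      ¬ Pool.Agent.Lib.MP_1a91b9_nuG.Ram F q) (h : UnitT ℓ F Ψ) : UnitZY ℓ F Ψ := by
  obtain ⟨L, hL, hL1, hv⟩ := h
  refine ⟨L, hL, hL1, fun A hA d hd => ?_⟩
  rw [hv A hA, val_dg hℓ hu hA hd, one_pow, one_mul]

/-- the two halves of the unit property at a prime number which splits -/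
theorem unitZY_of_unitY {p : 𝓞 K} (hp : p * cK p = (ℓ : 𝓞 K)) (h1 : UnitY p F Ψ)
    (h2 : UnitY (cK p) F Ψ) : UnitZY ℓ F Ψ := by
  obtain ⟨L, hL, hL1, hv⟩ := h1
  obtain ⟨L', hL', hL1', hv'⟩ := h2
  have e : L' = L := entire_eq hL' hL fun s hs => by rw [hL1' s hs, hL1 s hs]
  refine ⟨L, hL, hL1, fun A hA d hd => ?_⟩
  rcases plP_cases hp hA with h | h
  · exact hv A h d hd
  · rw [← e]
    exact hv' A h d hd

theorem unitY_of_unitZY {p : 𝓞 K} (hℓ : ℓ ≠ 0) (hp : p ∣ (ℓ : 𝓞 K)) (h : UnitZY ℓ F Ψ) :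
    UnitY p F Ψ := by
  obtain ⟨L, hL, hL1, hv⟩ := h
  exact ⟨L, hL, hL1, fun A hA d hd => hv A (plP_ell hℓ hp hA) d hd⟩

/-- the value does not vanish -/
theorem UnitZY.lgood (hℓ : ℓ.Prime) (h : UnitZY ℓ F Ψ) : LGoodY F Ψ := by
  obtain ⟨L, hL, hL1, hv⟩ := h
  refine ⟨L, hL, hL1, fun h0 => ?_⟩
  obtain ⟨A₀, hA₀⟩ := Ell.d3_exists hℓ
  obtain ⟨d, hd⟩ := exists_dg F
  have h1 := hv A₀ hA₀ d hd
  rw [h0, zero_div, map_zero, zero_pow two_ne_zero, zero_mul] at h1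
  exact zero_ne_one h1

end

end Pool.Agent.Lib.MP_1a91b9_nuY
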