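import Pool.Agent.Lib.MP_1a91b9_nuY.ZD.PsT
import Pool.Agent.Lib.MP_1a91b9_nuY.ZD.Defs
import Pool.Agent.Lib.MP_1a91b9_nuW.ZD.Low

/-!
# Twisted base: comparison of the unit properties, and descent

`unitZT_iff`: the unit property of the character `psT F T g θ` is the unit property of `psi F` with the ray class character of `θ`.
`unitZY_down`: descent from `F` to `N` in the extensions generated by torsion points.
-/

set_option autoImplicit false

namespace Pool.Agent.Lib.MP_1a91b9_nuY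

variable [Pool.Agent.Lib.MP_1a91b9_nuT.CD]

open Pool.Agent.Lib.MP_1a91b9_nuT hiding cj
open NumberField IsDedekindDomain Module Pool.Agent.Lib.MP_1a91b9_nt
  Pool.Agent.Lib.MP_1a91b9_nuT.S4 Pool.Agent.Lib.MP_1a91b9_nuG Pool.Agent.Lib.MP_1a91b9_nuX
  Pool.Agent.Lib.MP_1a91b9_nuW
open Pool.Agent.Lib.MP_1a91b9_nuX.DB Pool.Agent.Lib.MP_1a91b9_nuX.DX
open Pool.Agent.Lib.MP_1a91b9_nuX.TG Pool.Agent.Lib.MP_1a91b9_nuX.TC
open Pool.Agent.Lib.MP_1a91b9_nuX.AN
open Pool.Agent.Lib.MP_1a91b9_nuX.QW (thC unC unC_apply unC_conj thC_apply span_up_ne span_up_cop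
  span_le_gB)
open Pool.Agent.Lib.MP_1a91b9_nuW.ZD (UnitZT WOk VAL unitZT_abT)

universe u

variable [HC]

section
variable {g : 𝓞 K} {F L : Type u} [Field F] [NumberField F] [Algebra K F]
  [Field L] [NumberField L] [Algebra K L]
  [Algebra F L] [IsScalarTower K F L] [DecidableEq L] {T : Pt L}
  {θ : Gal(L/F) →* (𝓞 K)ˣ} {ℓ : ℕ}

theorem pB_psT_eq : pB (psT F T g θ) =
    fun I => psbC F I * cT F T (Ideal.span {up g F}) (thC θ) I :=
  funext fun I => pB_psT I

/-- the unit properties of the twist -/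
theorem unitZT_iff : UnitZT ℓ F (cT F T (Ideal.span {up g F}) (thC θ)) ↔
    UnitZY ℓ F (psT F T g θ) := by
  unfold UnitZT UnitZY
  rw [pB_psT_eq]

/-- the nonvanishing of the twist -/
theorem lgoodT_iff : LGoodT F (cT F T (Ideal.span {up g F}) (thC θ)) ↔
    LGoodY F (psT F T g θ) := by
  unfold LGoodT LGoodY
  rw [pB_psT_eq]

end

section
variable {μ g : 𝓞 K} {N F L : Type u} [Field N] [NumberField N] [Algebra K N]
  [Field F] [NumberField F] [Algebra K F] [Field L] [NumberField L] [Algebra K L]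
  [Algebra N F] [Algebra N L] [Algebra F L] [IsScalarTower K N F] [IsScalarTower K N L]
  [IsScalarTower K F L] [IsScalarTower N F L] [DecidableEq L] [IsGalois N L]

/-- **Descent of the unit property of the twist** from `F` to `N`. -/
theorem unitZY_down {T : Pt L} (hT : AbT μ N T) (hg0 : g ≠ 0) (hg : gB μ ∣ g)
    (θ : Gal(L/N) →* (𝓞 K)ˣ) {ℓ : ℕ} (hℓ : ℓ.Prime) (hD : ¬ (ℓ : ℤ) ∣ CD.bad)
    (hV : VAL.{u} ℓ) (hgℓ : IsCoprime g (ℓ : 𝓞 K)) (h3 : WOk ℓ F)
    (h : UnitZY ℓ F (psT F T g (θ.comp (toFH N F L)))) :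
    UnitZY ℓ N (psT N T g θ) := by
  rw [← unitZT_iff] at h ⊢
  refine unitZT_abT μ hℓ hD hV _ N F L T hT _ (span_up_ne hg0 N) (span_le_gB hg N) (thC θ)
    (span_up_cop hgℓ N) rfl h3 ?_
  have e : (Ideal.span {up g N}).map (algebraMap (𝓞 N) (𝓞 F)) = Ideal.span {up g F} := by
    rw [Ideal.map_span, Set.image_singleton]
    have h1 : algebraMap (𝓞 N) (𝓞 F) (up g N) = up g F :=
      MP_1a91b9_nuT3.S8.algebraMap_tower (F := N) (F' := F) g
    rw [h1]
  rw [e]
  exact h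

end

end Pool.Agent.Lib.MP_1a91b9_nuY
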